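import Pool.Agent.Q260.QH.Main

/-!
# MP_9437d9_an, Q1 (proved)

If the system `A_ℓ x^(ℓ) + … + A_1 x' + A_0 x = 0` over the real quaternions, with `A_k` hermitian for
odd `k` and skewhermitian for even `k` and with `A_ℓ` invertible, is stably bounded, then every root
subspace of its companion matrix `C` is `G`-positive or `G`-negative.

The definitions `H`, `IsSolution`, `IsBoundedSystem`, `companion`, `gmat`, `IsEigenvalue`, `rootPoly`,
`rootSubspace`, `IsPositiveOn`, `IsNegativeOn` are in `Pool/Agent/H636R3/QDefs.lean`; `OddSym` and
`StablyBounded` (the symmetry class of this problem) are in `Pool/Agent/Q260/QH/Perturb.lean`.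

Proof: a bounded system has only semisimple eigenvalues with zero real part (this includes the
eigenvalue `0`). If an eigenvector `c = (v, v ω, v ω², …)` is `G`-neutral, then for real `e → 0`,
`e ≠ 0`, one solves `(A_0 + X) v + (A_1 + Y) v (ω + e) + ∑_{k ≥ 2} A_k v (ω + e)^k = 0` with a small
skewhermitian `X` and a small hermitian `Y`, so that a nearby system has an exponentially growing
solution. By connectedness the form is definite on the eigenvectors for `μ i`, and every vector of the
root subspace is `a + b j` with two such eigenvectors and `(a + b j)* G (a + b j) = a* G a + b* G b`.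
-/

set_option autoImplicit false

open Matrix

namespace Pool.Agent.Results.MP_9437d9_an.GyroscopicDefinite

open Pool.Agent.H636R3.Quat Pool.Agent.Q260.QH

/-- **Q1 holds.** -/
theorem result (n ℓ : ℕ) (hℓ : 1 ≤ ℓ) (A : ℕ → Matrix (Fin n) (Fin n) H)
    (hA : OddSym ℓ A) (hinv : IsUnit (A ℓ)) (hst : StablyBounded ℓ A) (l : H)
    (hl : IsEigenvalue (companion ℓ A) l) :
    IsPositiveOn (gmat ℓ A) (rootSubspace (companion ℓ A) l) ∨
      IsNegativeOn (gmat ℓ A) (rootSubspace (companion ℓ A) l) :=
  main n ℓ hℓ A hA hinv hst l hl

end Pool.Agent.Results.MP_9437d9_an.GyroscopicDefinite
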